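import Mathlib

set_option autoImplicit false

namespace Pool.Agent.H54.Comp

theorem computable_symm {σ : Equiv.Perm ℕ} (h : Computable (σ : ℕ → ℕ)) :
    Computable (σ.symm : ℕ → ℕ) := by
  have hex : ∀ x : ℕ, ∃ n, σ n = x := fun x => σ.surjective x
  have h1 : ComputablePred (fun p : ℕ × ℕ => σ p.2 = p.1) := by
    refine ⟨inferInstance, ?_⟩
    have : Computable (fun p : ℕ × ℕ => decide (σ p.2 = p.1)) :=
      (Primrec.eq (α := ℕ)).decide.to_comp.comp (h.comp Computable.snd) Computable.fst
    exact this
  have h2 := Computable.find (P := fun x n => σ n = x) h1 hex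
  refine h2.of_eq ?_
  intro x
  have := Nat.find_spec (hex x)
  rw [Equiv.eq_symm_apply]
  exact this

/-- The group of computable permutations of `ℕ`. -/
def Rec : Subgroup (Equiv.Perm ℕ) where
  carrier := {σ | Computable (σ : ℕ → ℕ)}
  mul_mem' := by
    intro a b ha hb
    exact Computable.comp (f := (a : ℕ → ℕ)) (g := (b : ℕ → ℕ)) ha hb
  one_mem' := by
    change Computable (fun x : ℕ => x)
    exact Computable.id
  inv_mem' := by
    intro a ha
    exact computable_symm ha

theorem mem_Rec {σ : Equiv.Perm ℕ} : σ ∈ Rec ↔ Computable (σ : ℕ → ℕ) := Iff.rfl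

theorem computable_mul {σ τ : Equiv.Perm ℕ} (h : Computable (σ : ℕ → ℕ))
    (h' : Computable (τ : ℕ → ℕ)) : Computable ((σ * τ : Equiv.Perm ℕ) : ℕ → ℕ) :=
  Computable.comp (f := (σ : ℕ → ℕ)) (g := (τ : ℕ → ℕ)) h h'

theorem computable₂_pow {σ : Equiv.Perm ℕ} (h : Computable (σ : ℕ → ℕ)) :
    Computable₂ (fun (e q : ℕ) => (σ ^ e) q) := by
  have h1 : Computable (fun p : ℕ × ℕ =>
      Nat.rec (motive := fun _ => ℕ) p.2 (fun _ IH => σ IH) p.1) :=
    Computable.nat_rec (f := fun p : ℕ × ℕ => p.1) (g := fun p : ℕ × ℕ => p.2)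
      (h := fun (_ : ℕ × ℕ) (z : ℕ × ℕ) => σ z.2)
      Computable.fst Computable.snd
      ((h.comp (Computable.snd.comp Computable.snd)).to₂)
  refine Computable.of_eq (f := fun p : ℕ × ℕ => _) h1 ?_
  rintro ⟨e, q⟩
  simp only
  induction e with
  | zero => simp
  | succ n ih => rw [pow_succ', Equiv.Perm.mul_apply]; rw [← ih]

/-- Iterated evaluation along a list of indices is computable. -/
theorem computable_foldl {F : ℕ → ℕ → ℕ} (hF : Computable₂ F) :
    Computable₂ (fun (w : List ℕ) (q : ℕ) => w.foldl (fun x v => F v x) q) := by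
  have h1 : Computable (fun p : List ℕ × ℕ =>
      Nat.rec (motive := fun _ => ℕ) p.2 (fun s IH => F ((p.1[s]?).getD 0) IH) p.1.length) := by
    refine Computable.nat_rec (f := fun p : List ℕ × ℕ => p.1.length)
      (g := fun p : List ℕ × ℕ => p.2)
      (h := fun (p : List ℕ × ℕ) (z : ℕ × ℕ) => F ((p.1[z.1]?).getD 0) z.2)
      (Computable.list_length.comp Computable.fst) Computable.snd ?_
    apply Computable₂.mk
    refine hF.comp ?_ (Computable.snd.comp Computable.snd)
    refine Computable.option_getD ?_ (Computable.const 0)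
    exact Computable.list_getElem?.comp (Computable.fst.comp Computable.fst)
      (Computable.fst.comp Computable.snd)
  refine Computable.of_eq (f := fun p : List ℕ × ℕ => _) h1 ?_
  rintro ⟨w, q⟩
  simp only
  have key : ∀ m, m ≤ w.length →
      Nat.rec (motive := fun _ => ℕ) q (fun s IH => F ((w[s]?).getD 0) IH) m =
      (w.take m).foldl (fun x v => F v x) q := by
    intro m
    induction m with
    | zero => intro _; simp
    | succ m ih =>
      intro hm
      have hm' : m < w.length := hm
      rw [List.take_succ_eq_append_getElem hm', List.foldl_append]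
      simp only [List.foldl_cons, List.foldl_nil]
      rw [← ih (by omega)]
      simp [List.getElem?_eq_getElem hm']
  have := key w.length le_rfl
  rw [List.take_length] at this
  exact this

/-- A computable monotone bound. -/
theorem exists_bound {F : ℕ → ℕ → ℕ} (hF : Computable₂ F) :
    ∃ g : ℕ → ℕ, Computable g ∧ Monotone g ∧ (∀ n, n ≤ g n) ∧
      ∀ n v q, v ≤ n → q ≤ n → F v q ≤ g n := by
  -- sum of all values up to a code
  let S : ℕ → ℕ := fun n => Nat.rec (motive := fun _ => ℕ) 0
    (fun s IH => IH + F (Nat.unpair s).1 (Nat.unpair s).2) n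
  have hS : Computable S := by
    refine Computable.nat_rec (f := fun n : ℕ => n) (g := fun _ : ℕ => 0)
      (h := fun (_ : ℕ) (z : ℕ × ℕ) => z.2 + F (Nat.unpair z.1).1 (Nat.unpair z.1).2)
      Computable.id (Computable.const 0) ?_
    apply Computable₂.mk
    refine Primrec.nat_add.to_comp.comp (Computable.snd.comp Computable.snd) ?_
    refine hF.comp ?_ ?_
    · exact Computable.fst.comp (Computable.unpair.comp (Computable.fst.comp Computable.snd))
    · exact Computable.snd.comp (Computable.unpair.comp (Computable.fst.comp Computable.snd))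
  have hSmono : Monotone S := monotone_nat_of_le_succ (fun n => Nat.le_add_right _ _)
  have hSF : ∀ s n, s < n → F (Nat.unpair s).1 (Nat.unpair s).2 ≤ S n := by
    intro s n hs
    calc F (Nat.unpair s).1 (Nat.unpair s).2 ≤ S (s + 1) := Nat.le_add_left _ _
      _ ≤ S n := hSmono hs
  refine ⟨fun n => n + S (Nat.pair n n + 1), ?_, ?_, ?_, ?_⟩
  · refine Primrec.nat_add.to_comp.comp Computable.id
      (Computable.comp (f := S) (g := fun n : ℕ => Nat.pair n n + 1) hS ?_)
    exact Computable.succ.comp (Primrec₂.natPair.to_comp.comp Computable.id Computable.id)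
  · intro a b hab
    have h1 : Nat.pair a a ≤ Nat.pair b b := by
      rcases Nat.lt_or_eq_of_le hab with h | h
      · exact ((Nat.pair_lt_pair_left a h).trans (Nat.pair_lt_pair_right b h)).le
      · rw [h]
    exact Nat.add_le_add hab (hSmono (Nat.succ_le_succ h1))
  · intro n; exact Nat.le_add_right _ _
  · intro n v q hv hq
    have h1 : Nat.pair v q ≤ Nat.pair n n := by
      have h2 : Nat.pair v q ≤ Nat.pair n q := by
        rcases Nat.lt_or_eq_of_le hv with h | h
        · exact (Nat.pair_lt_pair_left q h).le
        · rw [h]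
      have h3 : Nat.pair n q ≤ Nat.pair n n := by
        rcases Nat.lt_or_eq_of_le hq with h | h
        · exact (Nat.pair_lt_pair_right n h).le
        · rw [h]
      exact h2.trans h3
    have h4 := hSF (Nat.pair v q) (Nat.pair n n + 1) (Nat.lt_succ_of_le h1)
    rw [Nat.unpair_pair] at h4
    exact h4.trans (Nat.le_add_left _ _)

/-- If triviality of a uniformly computable sequence of permutations is undecidable, then there is
a computable subsequence of nontrivial ones converging effectively to the identity. -/
theorem exists_null {U : ℕ → Equiv.Perm ℕ} (hU : Computable₂ (fun e q => U e q))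
    (hund : ¬ ComputablePred (fun e => U e ≠ 1)) :
    ∃ f : ℕ → ℕ, Computable f ∧ ∀ n, U (f n) ≠ 1 ∧ ∀ q ≤ n, U (f n) q = q := by
  classical
  let B : ℕ → ℕ → Bool := fun n e => Nat.rec (motive := fun _ => Bool) true
    (fun s IH => IH && decide (U e s = s)) n
  have hB : Computable₂ B := by
    refine Computable.nat_rec (f := fun p : ℕ × ℕ => p.1) (g := fun _ : ℕ × ℕ => true)
      (h := fun (p : ℕ × ℕ) (z : ℕ × Bool) => z.2 && decide (U p.2 z.1 = z.1))
      Computable.fst (Computable.const true) ?_
    apply Computable₂.mk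
    refine Primrec.and.to_comp.comp (Computable.snd.comp Computable.snd) ?_
    refine (Primrec.eq (α := ℕ)).decide.to_comp.comp ?_ (Computable.fst.comp Computable.snd)
    exact hU.comp (Computable.snd.comp Computable.fst) (Computable.fst.comp Computable.snd)
  have hB_iff : ∀ n e, B n e = true ↔ ∀ q < n, U e q = q := by
    intro n e
    induction n with
    | zero => simp [B]
    | succ n ih =>
      have : B (n + 1) e = (B n e && decide (U e n = n)) := rfl
      rw [this, Bool.and_eq_true, ih, decide_eq_true_eq]
      constructor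
      · rintro ⟨h1, h2⟩ q hq
        rcases Nat.lt_succ_iff_lt_or_eq.mp hq with h | h
        · exact h1 q h
        · rw [h]; exact h2
      · intro h
        exact ⟨fun q hq => h q (Nat.lt_succ_of_lt hq), h n (Nat.lt_succ_self n)⟩
  have hex : ∀ n, ∃ e, B (n + 1) e = true ∧ U e ≠ 1 := by
    intro n
    by_contra hcon
    push Not at hcon
    apply hund
    have hfun : (fun e => U e ≠ 1) = fun e => ((!(B (n + 1) e)) = true) := by
      funext e
      apply propext
      constructor
      · intro h
        by_contra h2
        apply h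
        apply hcon e
        simpa using h2
      · intro h h2
        have : B (n + 1) e = true := by
          refine (hB_iff (n + 1) e).mpr ?_
          intro q _
          rw [h2]; rfl
        rw [this] at h
        simp at h
    rw [hfun]
    exact ComputablePred.computable_iff.mpr ⟨fun e => !(B (n + 1) e),
      Primrec.not.to_comp.comp (hB.comp (Computable.const (n + 1)) Computable.id), rfl⟩
  let P : ℕ → ℕ → Prop := fun n m => (B (n + 1) (Nat.unpair m).1 &&
    !decide (U (Nat.unpair m).1 (Nat.unpair m).2 = (Nat.unpair m).2)) = true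
  have hPc : ComputablePred (fun p : ℕ × ℕ => P p.1 p.2) := by
    refine ComputablePred.computable_iff.mpr ⟨fun p => (B (p.1 + 1) (Nat.unpair p.2).1 &&
      !decide (U (Nat.unpair p.2).1 (Nat.unpair p.2).2 = (Nat.unpair p.2).2)), ?_, rfl⟩
    have hu1 : Computable (fun p : ℕ × ℕ => (Nat.unpair p.2).1) :=
      Computable.fst.comp (Computable.unpair.comp Computable.snd)
    have hu2 : Computable (fun p : ℕ × ℕ => (Nat.unpair p.2).2) :=
      Computable.snd.comp (Computable.unpair.comp Computable.snd)
    refine Primrec.and.to_comp.comp ?_ (Primrec.not.to_comp.comp ?_)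
    · exact hB.comp (Computable.succ.comp Computable.fst) hu1
    · exact (Primrec.eq (α := ℕ)).decide.to_comp.comp (hU.comp hu1 hu2) hu2
  have hPex : ∀ n, ∃ m, P n m := by
    intro n
    obtain ⟨e, he, hne⟩ := hex n
    obtain ⟨q, hq⟩ : ∃ q, U e q ≠ q := by
      by_contra hcon
      push Not at hcon
      exact hne (Equiv.ext hcon)
    refine ⟨Nat.pair e q, ?_⟩
    simp [P, Nat.unpair_pair, he, hq]
  refine ⟨fun n => (Nat.unpair (Nat.find (hPex n))).1,
    Computable.fst.comp (Computable.unpair.comp (Computable.find hPc hPex)), ?_⟩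
  intro n
  have hs : P n (Nat.find (hPex n)) := Nat.find_spec (hPex n)
  change U (Nat.unpair (Nat.find (hPex n))).1 ≠ 1 ∧
    ∀ q ≤ n, U (Nat.unpair (Nat.find (hPex n))).1 q = q
  generalize Nat.find (hPex n) = m at hs
  simp only [P, Bool.and_eq_true, Bool.not_eq_true', decide_eq_false_iff_not] at hs
  refine ⟨?_, ?_⟩
  · intro h
    apply hs.2
    rw [h]; rfl
  · intro q hq
    exact (hB_iff (n + 1) _).mp hs.1 q (Nat.lt_succ_of_le hq)

end Pool.Agent.H54.Comp
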