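import Mathlib
import Pool.Agent.H54.Comp

set_option autoImplicit false

namespace Pool.Agent.H54.Elems

open Pool.Agent.H54.Comp
open Nat.Partrec (Code)

/-- `Hb e s`: the program number `e` halts on input `0` exactly at stage `s + 1`. -/
def Hb (e s : ℕ) : Bool :=
  (Code.evaln (s + 1) (Denumerable.ofNat Code e) 0).isSome &&
    !(Code.evaln s (Denumerable.ofNat Code e) 0).isSome

theorem primrec_Hb : Primrec₂ Hb := by
  have h : ∀ {f : ℕ × ℕ → ℕ}, Primrec f →
      Primrec (fun p : ℕ × ℕ => (Code.evaln (f p) (Denumerable.ofNat Code p.1) 0).isSome) := by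
    intro f hf
    refine Primrec.option_isSome.comp ?_
    exact Code.primrec_evaln.comp
      ((hf.pair ((Primrec.ofNat Code).comp Primrec.fst)).pair (Primrec.const 0))
  exact Primrec.and.comp (h (Primrec.succ.comp Primrec.snd)) (Primrec.not.comp (h Primrec.snd))

theorem isSome_mono {c : Code} {s s' : ℕ} (h : s ≤ s')
    (hs : (Code.evaln s c 0).isSome = true) : (Code.evaln s' c 0).isSome = true := by
  obtain ⟨x, hx⟩ := Option.isSome_iff_exists.mp hs
  exact Option.isSome_iff_exists.mpr ⟨x, Code.evaln_mono h hx⟩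

theorem Hb_unique {e s s' : ℕ} (h : Hb e s = true) (h' : Hb e s' = true) : s = s' := by
  unfold Hb at h h'
  rw [Bool.and_eq_true, Bool.not_eq_true'] at h h'
  rcases lt_trichotomy s s' with hlt | heq | hgt
  · have := isSome_mono (Nat.succ_le_of_lt hlt) h.1
    rw [h'.2] at this
    exact absurd this (by simp)
  · exact heq
  · have := isSome_mono (Nat.succ_le_of_lt hgt) h'.1
    rw [h.2] at this
    exact absurd this (by simp)

theorem exists_Hb (e : ℕ) :
    (∃ s, Hb e s = true) ↔ (Code.eval (Denumerable.ofNat Code e) 0).Dom := by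
  classical
  constructor
  · rintro ⟨s, hs⟩
    unfold Hb at hs
    rw [Bool.and_eq_true] at hs
    obtain ⟨x, hx⟩ := Option.isSome_iff_exists.mp hs.1
    have : x ∈ Code.eval (Denumerable.ofNat Code e) 0 := Code.evaln_sound hx
    exact Part.dom_iff_mem.mpr ⟨x, this⟩
  · intro h
    obtain ⟨x, hx⟩ := Part.dom_iff_mem.mp h
    obtain ⟨k, hk⟩ := Code.evaln_complete.mp hx
    have hex : ∃ k, (Code.evaln k (Denumerable.ofNat Code e) 0).isSome = true :=
      ⟨k, Option.isSome_iff_exists.mpr ⟨x, hk⟩⟩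
    have hspec := Nat.find_spec hex
    have hmin := fun m hm => Nat.find_min hex (m := m) hm
    rcases hn : Nat.find hex with _ | n
    · rw [hn] at hspec
      simp [Code.evaln] at hspec
    · rw [hn] at hspec
      refine ⟨n, ?_⟩
      unfold Hb
      rw [Bool.and_eq_true, Bool.not_eq_true']
      refine ⟨hspec, ?_⟩
      have := hmin n (by omega)
      simpa using this

theorem undecidable_Hb : ¬ ComputablePred (fun e => ∃ s, Hb e s = true) := by
  intro h
  have h' : ComputablePred (fun e => (Code.eval (Denumerable.ofNat Code e) 0).Dom) :=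
    h.of_eq exists_Hb
  obtain ⟨f, hf, hfe⟩ := ComputablePred.computable_iff.mp h'
  apply ComputablePred.halting_problem 0
  refine ComputablePred.computable_iff.mpr
    ⟨fun c => f (Encodable.encode c), hf.comp Computable.encode, ?_⟩
  funext c
  have := congrFun hfe (Encodable.encode c)
  simpa using this

/-! ### Coordinates -/

/-- Extend a function on pairs to `ℕ`. -/
def lft (F : ℕ → ℕ → ℕ × ℕ) (x : ℕ) : ℕ :=
  Nat.pair (F (Nat.unpair x).1 (Nat.unpair x).2).1 (F (Nat.unpair x).1 (Nat.unpair x).2).2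

theorem lft_pair (F : ℕ → ℕ → ℕ × ℕ) (x y : ℕ) :
    lft F (Nat.pair x y) = Nat.pair (F x y).1 (F x y).2 := by
  simp [lft]

theorem primrec_lft {F : ℕ → ℕ → ℕ × ℕ} (hF : Primrec₂ F) : Primrec (lft F) := by
  have h : Primrec (fun x => F (Nat.unpair x).1 (Nat.unpair x).2) :=
    hF.comp (Primrec.fst.comp Primrec.unpair) (Primrec.snd.comp Primrec.unpair)
  exact Primrec₂.natPair.comp (Primrec.fst.comp h) (Primrec.snd.comp h)

theorem ext_pair {x y : ℕ} (f g : ℕ → ℕ) (h : ∀ a b, f (Nat.pair a b) = g (Nat.pair a b))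
    (_ : x = y) : f x = g x := by
  have := h (Nat.unpair x).1 (Nat.unpair x).2
  rwa [Nat.pair_unpair] at this

/-- Swap `1` and `2` modulo `3`. -/
def s12 (t : ℕ) : ℕ := if t % 3 = 1 then t + 1 else if t % 3 = 2 then t - 1 else t
/-- Swap `0` and `1` modulo `3`. -/
def s01 (t : ℕ) : ℕ := if t % 3 = 0 then t + 1 else if t % 3 = 1 then t - 1 else t

theorem s12_s12 (t : ℕ) : s12 (s12 t) = t := by
  unfold s12; split_ifs <;> omega
theorem s01_s01 (t : ℕ) : s01 (s01 t) = t := by
  unfold s01; split_ifs <;> omega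
theorem s12_div (t : ℕ) : s12 t / 3 = t / 3 := by
  unfold s12; split_ifs <;> omega
theorem s01_div (t : ℕ) : s01 t / 3 = t / 3 := by
  unfold s01; split_ifs <;> omega

theorem s12_0 {t : ℕ} (h : t % 3 = 0) : s12 t = t := by
  unfold s12; rw [if_neg (by omega), if_neg (by omega)]
theorem s12_1 {t : ℕ} (h : t % 3 = 1) : s12 t = t + 1 := by
  unfold s12; rw [if_pos h]
theorem s12_2 {t : ℕ} (h : t % 3 = 2) : s12 t = t - 1 := by
  unfold s12; rw [if_neg (by omega), if_pos h]
theorem s01_0 {t : ℕ} (h : t % 3 = 0) : s01 t = t + 1 := by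
  unfold s01; rw [if_pos h]
theorem s01_1 {t : ℕ} (h : t % 3 = 1) : s01 t = t - 1 := by
  unfold s01; rw [if_neg (by omega), if_pos h]
theorem s01_2 {t : ℕ} (h : t % 3 = 2) : s01 t = t := by
  unfold s01; rw [if_neg (by omega), if_neg (by omega)]

theorem primrec_modeq (m c : ℕ) : PrimrecPred (fun t : ℕ => t % m = c) :=
  PrimrecRel.comp Primrec.eq (Primrec.nat_mod.comp Primrec.id (Primrec.const m)) (Primrec.const c)

theorem primrec_eqc (c : ℕ) : PrimrecPred (fun t : ℕ => t = c) :=
  PrimrecRel.comp Primrec.eq Primrec.id (Primrec.const c)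

theorem primrec_subc (c : ℕ) : Primrec (fun t : ℕ => t - c) :=
  Primrec.nat_sub.comp Primrec.id (Primrec.const c)

theorem primrec_addc (c : ℕ) : Primrec (fun t : ℕ => t + c) :=
  Primrec.nat_add.comp Primrec.id (Primrec.const c)

theorem primrec_s12 : Primrec s12 :=
  Primrec.ite (primrec_modeq 3 1) (primrec_addc 1)
    (Primrec.ite (primrec_modeq 3 2) (primrec_subc 1) Primrec.id)

theorem primrec_s01 : Primrec s01 :=
  Primrec.ite (primrec_modeq 3 0) (primrec_addc 1)
    (Primrec.ite (primrec_modeq 3 1) (primrec_subc 1) Primrec.id)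

/-- A shift, with the evens as the nonnegative integers. -/
def sh (n : ℕ) : ℕ := if n % 2 = 0 then n + 2 else if n = 1 then 0 else n - 2
/-- Its inverse. -/
def shInv (n : ℕ) : ℕ := if n % 2 = 1 then n + 2 else if n = 0 then 1 else n - 2

theorem sh_shInv (n : ℕ) : sh (shInv n) = n := by
  unfold shInv
  split_ifs with h1 h2
  · unfold sh; rw [if_neg (by omega), if_neg (by omega)]; omega
  · subst h2; unfold sh; simp
  · unfold sh; rw [if_pos (by omega)]; omega
theorem shInv_sh (n : ℕ) : shInv (sh n) = n := by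
  unfold sh
  split_ifs with h1 h2
  · unfold shInv; rw [if_neg (by omega), if_neg (by omega)]; omega
  · subst h2; unfold shInv; simp
  · unfold shInv; rw [if_pos (by omega)]; omega

theorem primrec_sh : Primrec sh :=
  Primrec.ite (primrec_modeq 2 0) (primrec_addc 2)
    (Primrec.ite (primrec_eqc 1) (Primrec.const 0) (primrec_subc 2))

/-- The shift as a permutation. -/
def shP : Equiv.Perm ℕ := ⟨sh, shInv, shInv_sh, sh_shInv⟩

theorem shP_pow_zero (e : ℕ) : (shP ^ e) 0 = 2 * e := by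
  induction e with
  | zero => simp
  | succ n ih =>
    rw [pow_succ', Equiv.Perm.mul_apply, ih]
    change sh (2 * n) = _
    unfold sh
    rw [if_pos (by omega)]
    omega

/-! ### The three permutations -/

/-- column shift -/
def pa : Equiv.Perm ℕ where
  toFun := lft (fun c t => (sh c, t))
  invFun := lft (fun c t => (shInv c, t))
  left_inv := fun x => ext_pair (y := x)
    (fun x => lft (fun c t => (shInv c, t)) (lft (fun c t => (sh c, t)) x)) id
    (by intro a b; simp only [lft_pair, shInv_sh, id]) rfl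
  right_inv := fun x => ext_pair (y := x)
    (fun x => lft (fun c t => (sh c, t)) (lft (fun c t => (shInv c, t)) x)) id
    (by intro a b; simp only [lft_pair, sh_shInv, id]) rfl

/-- swaps `1` and `2` in all fibres of column `0` -/
def Fc (c t : ℕ) : ℕ × ℕ := if c = 0 then (c, s12 t) else (c, t)

theorem Fc_Fc (c t : ℕ) : Fc (Fc c t).1 (Fc c t).2 = (c, t) := by
  unfold Fc; split_ifs <;> simp_all [s12_s12]

/-- swaps `0` and `1` in the fibre `(2e, s)` if program `e` halts exactly at `s + 1` -/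
def Fb (c t : ℕ) : ℕ × ℕ := if (decide (c % 2 = 0) && Hb (c / 2) (t / 3)) = true
  then (c, s01 t) else (c, t)

theorem Fb_Fb (c t : ℕ) : Fb (Fb c t).1 (Fb c t).2 = (c, t) := by
  unfold Fb; split_ifs <;> simp_all [s01_s01, s01_div]

/-- involution from an involutive function on pairs -/
def inv2 (F : ℕ → ℕ → ℕ × ℕ) (hF : ∀ c t, F (F c t).1 (F c t).2 = (c, t)) : Equiv.Perm ℕ where
  toFun := lft F
  invFun := lft F
  left_inv := fun x => ext_pair (y := x) (fun x => lft F (lft F x)) id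
    (by intro a b; simp only [lft_pair, hF, id]) rfl
  right_inv := fun x => ext_pair (y := x) (fun x => lft F (lft F x)) id
    (by intro a b; simp only [lft_pair, hF, id]) rfl

/-- the permutation `c` -/
def pc : Equiv.Perm ℕ := inv2 Fc Fc_Fc
/-- the permutation `b` -/
def pb : Equiv.Perm ℕ := inv2 Fb Fb_Fb

theorem computable_pa : Computable (pa : ℕ → ℕ) := by
  change Computable (lft (fun c t => (sh c, t)))
  exact (primrec_lft (F := fun c t => (sh c, t))
    (Primrec₂.mk ((primrec_sh.comp Primrec.fst).pair Primrec.snd))).to_comp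

theorem computable_pc : Computable (pc : ℕ → ℕ) := by
  change Computable (lft Fc)
  refine (primrec_lft ?_).to_comp
  refine Primrec.ite ((primrec_eqc 0).comp Primrec.fst) ?_ ?_
  · exact Primrec.fst.pair (primrec_s12.comp Primrec.snd)
  · exact Primrec.fst.pair Primrec.snd

theorem computable_pb : Computable (pb : ℕ → ℕ) := by
  change Computable (lft Fb)
  refine (primrec_lft ?_).to_comp
  have h : Primrec (fun p : ℕ × ℕ => (decide (p.1 % 2 = 0) && Hb (p.1 / 2) (p.2 / 3))) := by
    refine Primrec.and.comp ?_ ?_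
    · exact ((primrec_modeq 2 0).comp Primrec.fst).decide
    · exact primrec_Hb.comp (Primrec.nat_div.comp Primrec.fst (Primrec.const 2))
        (Primrec.nat_div.comp Primrec.snd (Primrec.const 3))
  have h2 := Primrec.cond h (Primrec.fst.pair (primrec_s01.comp Primrec.snd))
    (Primrec.fst.pair (Primrec.snd (α := ℕ) (β := ℕ)))
  refine Primrec.of_eq (f := fun p : ℕ × ℕ => _) h2 ?_
  rintro ⟨c, t⟩
  simp only [Fb]
  cases hb : (decide (c % 2 = 0) && Hb (c / 2) (t / 3)) <;> simp

/-- elements of `Rec` -/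
def ra : Rec := ⟨pa, computable_pa⟩
/-- elements of `Rec` -/
def rb : Rec := ⟨pb, computable_pb⟩
/-- elements of `Rec` -/
def rc : Rec := ⟨pc, computable_pc⟩

/-- The test elements. -/
def u (e : ℕ) : Rec := (rb * (ra ^ e * rc * (ra ^ e)⁻¹)) ^ 2

theorem u_coe (e : ℕ) : ((u e : Rec) : Equiv.Perm ℕ) = (pb * (pa ^ e * pc * (pa ^ e)⁻¹)) ^ 2 := rfl

theorem pa_pow_pair (e c t : ℕ) : (pa ^ e) (Nat.pair c t) = Nat.pair ((shP ^ e) c) t := by
  induction e with
  | zero => simp
  | succ n ih =>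
    rw [pow_succ', pow_succ', Equiv.Perm.mul_apply, ih, Equiv.Perm.mul_apply]
    exact lft_pair (fun c t => (sh c, t)) _ _

theorem pa_pow_inv_pair (e c t : ℕ) :
    (pa ^ e)⁻¹ (Nat.pair c t) = Nat.pair ((shP ^ e)⁻¹ c) t := by
  rw [Equiv.Perm.inv_eq_iff_eq, pa_pow_pair]
  simp

theorem pc_pair (c t : ℕ) : pc (Nat.pair c t) = Nat.pair c (if c = 0 then s12 t else t) := by
  change lft Fc _ = _
  rw [lft_pair]
  unfold Fc
  split_ifs <;> rfl

theorem pb_pair (c t : ℕ) : pb (Nat.pair c t) =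
    Nat.pair c (if (decide (c % 2 = 0) && Hb (c / 2) (t / 3)) = true then s01 t else t) := by
  change lft Fb _ = _
  rw [lft_pair]
  unfold Fb
  split_ifs <;> rfl

theorem conj_pair (e c t : ℕ) : (pa ^ e * pc * (pa ^ e)⁻¹) (Nat.pair c t) =
    Nat.pair c (if c = 2 * e then s12 t else t) := by
  rw [Equiv.Perm.mul_apply, Equiv.Perm.mul_apply, pa_pow_inv_pair, pc_pair, pa_pow_pair]
  have : ((shP ^ e)⁻¹ c = 0) ↔ c = 2 * e := by
    rw [Equiv.Perm.inv_eq_iff_eq, shP_pow_zero]
  simp only [this]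
  congr 1
  exact Equiv.apply_symm_apply _ _

/-- The 3-cycle on residues. -/
def rot (t : ℕ) : ℕ := s01 (s12 (s01 (s12 t)))

theorem rot_0 (s : ℕ) : rot (3 * s) = 3 * s + 2 := by
  unfold rot
  have e1 : s12 (3 * s) = 3 * s := s12_0 (by omega)
  have e2 : s01 (3 * s) = 3 * s + 1 := s01_0 (by omega)
  have e3 : s12 (3 * s + 1) = 3 * s + 1 + 1 := s12_1 (by omega)
  have e4 : s01 (3 * s + 1 + 1) = 3 * s + 1 + 1 := s01_2 (by omega)
  rw [e1, e2, e3, e4]
theorem rot_1 (s : ℕ) : rot (3 * s + 1) = 3 * s := by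
  unfold rot
  have e1 : s12 (3 * s + 1) = 3 * s + 1 + 1 := s12_1 (by omega)
  have e2 : s01 (3 * s + 1 + 1) = 3 * s + 1 + 1 := s01_2 (by omega)
  have e3 : s12 (3 * s + 1 + 1) = 3 * s + 1 + 1 - 1 := s12_2 (by omega)
  have e4 : s01 (3 * s + 1 + 1 - 1) = 3 * s + 1 + 1 - 1 - 1 := s01_1 (by omega)
  rw [e1, e2, e3, e4]
  omega
theorem rot_2 (s : ℕ) : rot (3 * s + 2) = 3 * s + 1 := by
  unfold rot
  have e1 : s12 (3 * s + 2) = 3 * s + 2 - 1 := s12_2 (by omega)
  have e2 : s01 (3 * s + 2 - 1) = 3 * s + 2 - 1 - 1 := s01_1 (by omega)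
  have e3 : s12 (3 * s + 2 - 1 - 1) = 3 * s + 2 - 1 - 1 := s12_0 (by omega)
  have e4 : s01 (3 * s + 2 - 1 - 1) = 3 * s + 2 - 1 - 1 + 1 := s01_0 (by omega)
  rw [e1, e2, e3, e4]
  omega

theorem u_pair (e c t : ℕ) : ((u e : Rec) : Equiv.Perm ℕ) (Nat.pair c t) =
    Nat.pair c (if c = 2 * e ∧ Hb e (t / 3) = true then rot t else t) := by
  have hv : ∀ t, (pb * (pa ^ e * pc * (pa ^ e)⁻¹)) (Nat.pair c t) =
      pb (Nat.pair c (if c = 2 * e then s12 t else t)) := by
    intro t
    rw [Equiv.Perm.mul_apply, conj_pair]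
  rw [u_coe, pow_two, Equiv.Perm.mul_apply, hv, pb_pair, hv, pb_pair]
  by_cases hc : c = 2 * e
  · subst hc
    have h1 : 2 * e % 2 = 0 := by omega
    have h2 : 2 * e / 2 = e := by omega
    simp only [h1, h2, decide_true, Bool.true_and, if_true, true_and]
    by_cases hH : Hb e (t / 3) = true
    · simp only [s12_div, s01_div, hH, if_true]
      rfl
    · simp only [s12_div, if_neg hH, s12_s12]
  · simp only [hc, if_false, false_and]
    by_cases hH : (decide (c % 2 = 0) && Hb (c / 2) (t / 3)) = true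
    · simp only [s01_div, hH, if_true, s01_s01]
    · rw [if_neg hH, if_neg hH]

theorem u_eq_one_iff (e : ℕ) : u e = 1 ↔ ¬ ∃ s, Hb e s = true := by
  constructor
  · rintro h ⟨s, hs⟩
    have h1 : ((u e : Rec) : Equiv.Perm ℕ) (Nat.pair (2 * e) (3 * s)) =
      Nat.pair (2 * e) (3 * s) := by rw [h]; rfl
    rw [u_pair, Nat.pair_eq_pair] at h1
    have h2 : 3 * s / 3 = s := by omega
    rw [h2, if_pos ⟨rfl, hs⟩] at h1
    have h3 := h1.2
    rw [rot_0] at h3
    omega
  · intro h
    push Not at h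
    apply Subtype.ext
    apply Equiv.ext
    intro x
    refine ext_pair (y := x) _ _ ?_ rfl
    intro c t
    rw [u_pair, if_neg (fun hh => h _ hh.2)]
    rfl

theorem undecidable_u : ¬ ComputablePred (fun e => u e ≠ 1) := by
  intro h
  apply undecidable_Hb
  refine h.of_eq ?_
  intro e
  rw [Ne, u_eq_one_iff, not_not]

theorem notcube {v g : Equiv.Perm ℕ} {p : ℕ} (hp : v p ≠ p) (h3 : v (v (v p)) = p)
    (hs : ∀ q, v q ≠ q → q = p ∨ q = v p ∨ q = v (v p)) : v ≠ g ^ 3 := by
  intro h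
  have hcomm : ∀ q, g (v q) = v (g q) := by
    intro q
    rw [h]
    simp [pow_succ, Equiv.Perm.mul_apply]
  have hvp : v p = g (g (g p)) := by
    rw [h]; simp [pow_succ, Equiv.Perm.mul_apply]
  have hgp : v (g p) ≠ g p := by
    rw [← hcomm]
    intro hh
    exact hp (g.injective hh)
  rcases hs _ hgp with h1 | h1 | h1
  · rw [h1, h1, h1] at hvp
    exact hp hvp
  · apply hp
    rw [hvp, h1, hcomm, h1, hcomm, hcomm, h1]
    exact h3
  · apply hp
    have e1 : g (v (v p)) = v (v (v (v p))) := by rw [hcomm, hcomm, h1]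
    have e2 : g (v p) = v (v (v p)) := by rw [hcomm, h1]
    rw [hvp, h1, e1, h3, e2]
    exact h3

theorem u_notcube (e : ℕ) (he : u e ≠ 1) (g : Rec) : u e ≠ g ^ 3 := by
  intro h
  have hex : ∃ s, Hb e s = true := by
    by_contra hcon
    exact he ((u_eq_one_iff e).mpr hcon)
  obtain ⟨s, hs⟩ := hex
  have h' : ((u e : Rec) : Equiv.Perm ℕ) = (g : Equiv.Perm ℕ) ^ 3 := by rw [h]; rfl
  have d0 : (3 * s) / 3 = s := by omega
  have d1 : (3 * s + 1) / 3 = s := by omega
  have d2 : (3 * s + 2) / 3 = s := by omega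
  have r0 := rot_0 s
  have r1 := rot_1 s
  have r2 := rot_2 s
  have u0 : ((u e : Rec) : Equiv.Perm ℕ) (Nat.pair (2 * e) (3 * s)) =
      Nat.pair (2 * e) (3 * s + 2) := by rw [u_pair, d0, if_pos ⟨rfl, hs⟩, r0]
  have u1 : ((u e : Rec) : Equiv.Perm ℕ) (Nat.pair (2 * e) (3 * s + 1)) =
      Nat.pair (2 * e) (3 * s) := by rw [u_pair, d1, if_pos ⟨rfl, hs⟩, r1]
  have u2 : ((u e : Rec) : Equiv.Perm ℕ) (Nat.pair (2 * e) (3 * s + 2)) =
      Nat.pair (2 * e) (3 * s + 1) := by rw [u_pair, d2, if_pos ⟨rfl, hs⟩, r2]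
  refine notcube (p := Nat.pair (2 * e) (3 * s)) ?_ ?_ ?_ h'
  · rw [u0]
    intro hh
    rw [Nat.pair_eq_pair] at hh
    omega
  · rw [u0, u2, u1]
  · intro q
    obtain ⟨c, t, rfl⟩ : ∃ c t, q = Nat.pair c t :=
      ⟨(Nat.unpair q).1, (Nat.unpair q).2, (Nat.pair_unpair q).symm⟩
    intro hq
    rw [u_pair] at hq
    by_cases hcond : c = 2 * e ∧ Hb e (t / 3) = true
    · obtain ⟨hc, hH⟩ := hcond
      have hts : t / 3 = s := Hb_unique hH hs
      rw [u0, u2, hc]
      have : t = 3 * s ∨ t = 3 * s + 2 ∨ t = 3 * s + 1 := by omega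
      rcases this with h | h | h
      · left; rw [h]
      · right; left; rw [h]
      · right; right; rw [h]
    · rw [if_neg hcond] at hq
      exact absurd rfl hq

end Pool.Agent.H54.Elems
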