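import Mathlib

set_option autoImplicit false

namespace Pool.Agent.H54.FP

open Monoid Monoid.CoprodI

variable {R : Type} [Group R] [DecidableEq R]

/-- Syllable length in the free product of two copies of `R`. -/
def len (x : CoprodI (fun _ : Bool => R)) : ℕ := (Word.equiv x).toList.length

omit [DecidableEq R] in
theorem rcons_length [DecidableEq R] {i : Bool} (p : Word.Pair (fun _ : Bool => R) i) :
    (Word.rcons p).toList.length ≤ p.tail.toList.length + 1 ∧
      p.tail.toList.length ≤ (Word.rcons p).toList.length := by
  unfold Word.rcons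
  split_ifs with h
  · constructor <;> omega
  · simp [Word.cons]

theorem len_of_mul_le (b : Bool) (m : R) (x : CoprodI (fun _ : Bool => R)) :
    len (of (M := fun _ : Bool => R) (i := b) m * x) ≤ len x + 1 := by
  unfold len
  have h1 : Word.equiv (of (M := fun _ : Bool => R) (i := b) m * x)
      = of (M := fun _ : Bool => R) (i := b) m • Word.equiv x := by
    change (of (M := fun _ : Bool => R) (i := b) m * x) • (Word.empty : Word (fun _ : Bool => R)) =
      of (M := fun _ : Bool => R) (i := b) m • (x • (Word.empty : Word (fun _ : Bool => R)))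
    rw [mul_smul]
  rw [h1, Word.of_smul_def]
  set w := Word.equiv x
  have h2 : Word.rcons (Word.equivPair b w) = w := (Word.equivPair b).symm_apply_apply w
  have h3 := (rcons_length (Word.equivPair b w)).2
  rw [h2] at h3
  exact le_trans (rcons_length _).1 (Nat.succ_le_succ h3)

theorem len_le_of_mul (b : Bool) (m : R) (x : CoprodI (fun _ : Bool => R)) :
    len x ≤ len (of (M := fun _ : Bool => R) (i := b) m * x) + 1 := by
  have h := len_of_mul_le b m⁻¹ (of (M := fun _ : Bool => R) (i := b) m * x)
  rwa [← mul_assoc, ← map_mul, inv_mul_cancel, map_one, one_mul] at h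

theorem len_prod {i j : Bool} (w : NeWord (fun _ : Bool => R) i j) :
    len w.prod = w.toList.length := by
  unfold len NeWord.prod
  have : Word.equiv (w.toWord.prod) = w.toWord := Word.equiv.apply_symm_apply w.toWord
  rw [this]
  rfl

omit [DecidableEq R] in
theorem headDecomp {i j : Bool} (w : NeWord (fun _ : Bool => R) i j) :
    (∃ a : R, a ≠ 1 ∧ i = j ∧ w.prod = of (M := fun _ : Bool => R) (i := i) a ∧
      w.toList.length = 1) ∨
    ∃ (k : Bool) (_ : i ≠ k) (w' : NeWord (fun _ : Bool => R) k j) (a : R), a ≠ 1 ∧
      w.prod = of (M := fun _ : Bool => R) (i := i) a * w'.prod ∧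
      w.toList.length = w'.toList.length + 1 := by
  induction w with
  | singleton x hx => exact Or.inl ⟨x, hx, rfl, by simp, by simp⟩
  | @append i j k l w₁ hne w₂ ih₁ ih₂ =>
    right
    rcases ih₁ with ⟨a, ha, hij, hp, hl⟩ | ⟨k', hk', w', a, ha, hp, hl⟩
    · subst hij
      refine ⟨k, hne, w₂, a, ha, ?_, ?_⟩
      · rw [NeWord.append_prod, hp]
      · simp only [NeWord.toList, List.length_append, hl]
        omega
    · refine ⟨k', hk', w'.append hne w₂, a, ha, ?_, ?_⟩
      · rw [NeWord.append_prod, hp, NeWord.append_prod, mul_assoc]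
      · simp only [NeWord.toList, List.length_append, hl]
        omega

omit [DecidableEq R] in
theorem lastDecomp {i j : Bool} (w : NeWord (fun _ : Bool => R) i j) :
    (∃ a : R, a ≠ 1 ∧ i = j ∧ w.prod = of (M := fun _ : Bool => R) (i := i) a ∧
      w.toList.length = 1) ∨
    ∃ (k : Bool) (_ : k ≠ j) (w' : NeWord (fun _ : Bool => R) i k) (a : R), a ≠ 1 ∧
      w.prod = w'.prod * of (M := fun _ : Bool => R) (i := j) a ∧
      w.toList.length = w'.toList.length + 1 := by
  induction w with
  | singleton x hx => exact Or.inl ⟨x, hx, rfl, by simp, by simp⟩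
  | @append i j k l w₁ hne w₂ ih₁ ih₂ =>
    right
    rcases ih₂ with ⟨a, ha, hij, hp, hl⟩ | ⟨k', hk', w', a, ha, hp, hl⟩
    · subst hij
      refine ⟨j, hne, w₁, a, ha, ?_, ?_⟩
      · rw [NeWord.append_prod, hp]
      · simp only [NeWord.toList, List.length_append, hl]
    · refine ⟨k', hk', w₁.append hne w', a, ha, ?_, ?_⟩
      · rw [NeWord.append_prod, hp, NeWord.append_prod, mul_assoc]
      · simp only [NeWord.toList, List.length_append, hl]
        omega

/-- Projection of the free product to its `b`-th factor, killing the other one. -/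
def proj (b : Bool) : CoprodI (fun _ : Bool => R) →* R :=
  CoprodI.lift (fun i => if i = b then MonoidHom.id R else 1)

omit [DecidableEq R] in
theorem proj_same (b : Bool) (a : R) :
    proj b (of (M := fun _ : Bool => R) (i := b) a) = a := by
  simp [proj]

omit [DecidableEq R] in
theorem proj_other (b i : Bool) (h : i ≠ b) (a : R) :
    proj b (of (M := fun _ : Bool => R) (i := i) a) = 1 := by
  simp [proj, h]

omit [DecidableEq R] in
theorem cube_aux (n : ℕ) : ∀ (i j : Bool) (w : NeWord (fun _ : Bool => R) i j),
    w.toList.length ≤ n → (∀ b, proj b w.prod ≠ 1) →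
    ∃ v : NeWord (fun _ : Bool => R) i j, v.prod = w.prod ^ 3 ∧
      w.toList.length + 3 ≤ v.toList.length := by
  induction n using Nat.strong_induction_on with
  | _ n ih =>
  intro i j w hn hw
  have hpos : 1 ≤ w.toList.length := by
    have := NeWord.toList_ne_nil w
    exact List.length_pos_iff.mpr this
  by_cases hij : i = j
  · subst hij
    rcases headDecomp w with ⟨a, ha, -, hp, hl⟩ | ⟨k, hk, w₁, a, ha, hp, hl⟩
    · exfalso
      apply hw (!i)
      rw [hp, proj_other _ _ (by cases i <;> simp)]
    · rcases lastDecomp w₁ with ⟨c, hc, hkj, hp1, hl1⟩ | ⟨l, hli, w', c, hc, hp1, hl1⟩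
      · exact absurd hkj.symm hk
      · have hkl : k = l := by
          cases i <;> cases k <;> cases l <;> simp_all
        subst hkl
        have hpos' : 1 ≤ w'.toList.length :=
          List.length_pos_iff.mpr (NeWord.toList_ne_nil w')
        have hprod : w.prod = of (M := fun _ : Bool => R) (i := i) a * w'.prod *
            of (M := fun _ : Bool => R) (i := i) c := by
          rw [hp, hp1, mul_assoc]
        by_cases hca : c * a = 1
        · -- conjugate
          have hc' : c = a⁻¹ := eq_inv_of_mul_eq_one_left hca
          have hw' : ∀ b, proj b w'.prod ≠ 1 := by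
            intro b hb
            apply hw b
            rw [hprod, map_mul, map_mul, hb, hc', mul_one, ← map_mul, ← map_mul,
              mul_inv_cancel, map_one, map_one]
          obtain ⟨v, hv, hvl⟩ := ih (w'.toList.length) (by omega) _ _ w' le_rfl hw'
          refine ⟨((NeWord.singleton a ha).append hk v).append hli
            (NeWord.singleton c hc), ?_, ?_⟩
          · rw [NeWord.append_prod, NeWord.append_prod, NeWord.prod_singleton,
              NeWord.prod_singleton, hv, hprod, hc', map_inv]
            simp [pow_succ, mul_assoc]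
          · simp only [NeWord.toList, List.length_append, List.length_cons, List.length_nil]
            omega
        · refine ⟨((NeWord.singleton a ha).append hk w').append hli
            ((NeWord.singleton (c * a) hca).append hk
              (w'.append hli ((NeWord.singleton (c * a) hca).append hk
                (w'.append hli (NeWord.singleton c hc))))), ?_, ?_⟩
          · simp only [NeWord.append_prod, NeWord.prod_singleton, map_mul, hprod, pow_succ,
              pow_zero, one_mul, mul_assoc]
          · simp only [NeWord.toList, List.length_append, List.length_cons, List.length_nil]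
            omega
  · refine ⟨w.append (Ne.symm hij) (w.append (Ne.symm hij) w), ?_, ?_⟩
    · simp only [NeWord.append_prod, pow_succ, pow_zero, one_mul, mul_assoc]
    · simp only [NeWord.toList, List.length_append]
      rcases headDecomp w with ⟨a, ha, h, -⟩ | ⟨k, hk, w₁, a, ha, hp, hl⟩
      · exact absurd h hij
      · have hpos' : 1 ≤ w₁.toList.length :=
          List.length_pos_iff.mpr (NeWord.toList_ne_nil w₁)
        omega

theorem len_cube (y : CoprodI (fun _ : Bool => R)) (hy : ∀ b, proj b y ≠ 1) :
    len y + 3 ≤ len (y ^ 3) := by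
  have hne : y ≠ 1 := by
    rintro rfl
    exact hy true (map_one _)
  have hw : Word.equiv y ≠ Word.empty := by
    intro h
    apply hne
    have h1 : Word.equiv.symm (Word.equiv y) = Word.equiv.symm Word.empty := by rw [h]
    rw [Equiv.symm_apply_apply] at h1
    rw [h1]
    rfl
  obtain ⟨i, j, w', hw'⟩ := NeWord.of_word _ hw
  have hy' : w'.prod = y := by
    unfold NeWord.prod
    rw [hw']
    exact Word.equiv.symm_apply_apply y
  obtain ⟨v, hv, hvl⟩ := cube_aux (w'.toList.length) i j w' le_rfl (by rw [hy']; exact hy)
  rw [← hy', ← hv, len_prod, len_prod]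
  exact hvl

/-- The key contradiction. -/
theorem no_chain (x x' : ℕ → R) (hx : ∀ n g, x n ≠ g ^ 3) (hx' : ∀ n g, x' n ≠ g ^ 3)
    (y : ℕ → CoprodI (fun _ : Bool => R))
    (h : ∀ n, y n = of (M := fun _ : Bool => R) (i := true) (x n) *
      (of (M := fun _ : Bool => R) (i := false) (x' n) * (y (n + 1)) ^ 3)) : False := by
  have hproj : ∀ n b, proj b (y n) ≠ 1 := by
    intro n b hb
    rw [h n, map_mul, map_mul, map_pow] at hb
    cases b
    · rw [proj_other _ _ (by simp), proj_same, one_mul] at hb
      exact hx' n (proj false (y (n + 1)))⁻¹ (by rw [inv_pow]; exact eq_inv_of_mul_eq_one_left hb)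
    · rw [proj_same, proj_other true false (by simp), one_mul] at hb
      exact hx n (proj true (y (n + 1)))⁻¹ (by rw [inv_pow]; exact eq_inv_of_mul_eq_one_left hb)
  have hstep : ∀ n, len (y (n + 1)) + 1 ≤ len (y n) := by
    intro n
    have h1 := len_cube (y (n + 1)) (hproj (n + 1))
    have h2 := len_le_of_mul false (x' n) ((y (n + 1)) ^ 3)
    have h3 := len_le_of_mul true (x n)
      (of (M := fun _ : Bool => R) (i := false) (x' n) * (y (n + 1)) ^ 3)
    rw [← h n] at h3
    omega
  have : ∀ n, len (y n) + n ≤ len (y 0) := by
    intro n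
    induction n with
    | zero => simp
    | succ n ih => have := hstep n; omega
  have := this (len (y 0) + 1)
  omega

end Pool.Agent.H54.FP
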