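import Mathlib
import Pool.Agent.H54.Comp

set_option autoImplicit false

namespace Pool.Agent.H54.Limit

open Pool.Agent.H54.Comp

theorem computable₂_iterate {g : ℕ → ℕ} (h : Computable g) :
    Computable₂ (fun (m n : ℕ) => g^[m] n) := by
  have h1 : Computable (fun p : ℕ × ℕ =>
      Nat.rec (motive := fun _ => ℕ) p.2 (fun _ IH => g IH) p.1) :=
    Computable.nat_rec (f := fun p : ℕ × ℕ => p.1) (g := fun p : ℕ × ℕ => p.2)
      (h := fun (_ : ℕ × ℕ) (z : ℕ × ℕ) => g z.2)
      Computable.fst Computable.snd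
      ((h.comp (Computable.snd.comp Computable.snd)).to₂)
  refine Computable.of_eq (f := fun p : ℕ × ℕ => _) h1 ?_
  rintro ⟨e, q⟩
  simp only
  induction e with
  | zero => simp
  | succ n ih => rw [Function.iterate_succ_apply', ← ih]

/-- Number of letters of the approximating words. -/
def T : ℕ → ℕ := fun j => Nat.rec (motive := fun _ => ℕ) 0 (fun _ IH => 3 * IH + 1) j

theorem T_zero : T 0 = 0 := rfl
theorem T_succ (j : ℕ) : T (j + 1) = 3 * T j + 1 := rfl

theorem T_mono : Monotone T := monotone_nat_of_le_succ (fun n => by rw [T_succ]; omega)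

theorem computable_T : Computable T := by
  refine Computable.nat_rec (f := fun n : ℕ => n) (g := fun _ : ℕ => 0)
    (h := fun (_ : ℕ) (z : ℕ × ℕ) => 3 * z.2 + 1) Computable.id (Computable.const 0) ?_
  apply Computable₂.mk
  exact Computable.succ.comp (Primrec.nat_mul.to_comp.comp (Computable.const 3)
    (Computable.snd.comp Computable.snd))

/-- Fast growing choice of indices. -/
def nu (g : ℕ → ℕ) : ℕ → ℕ := fun k => Nat.rec (motive := fun _ => ℕ) 0
  (fun k IH => g^[T (k + 1)] (IH + (k + 1))) k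

theorem nu_zero (g : ℕ → ℕ) : nu g 0 = 0 := rfl
theorem nu_succ (g : ℕ → ℕ) (k : ℕ) : nu g (k + 1) = g^[T (k + 1)] (nu g k + (k + 1)) := rfl

theorem computable_nu {g : ℕ → ℕ} (hg : Computable g) : Computable (nu g) := by
  refine Computable.nat_rec (f := fun n : ℕ => n) (g := fun _ : ℕ => 0)
    (h := fun (_ : ℕ) (z : ℕ × ℕ) => g^[T (z.1 + 1)] (z.2 + (z.1 + 1)))
    Computable.id (Computable.const 0) ?_
  apply Computable₂.mk
  refine (computable₂_iterate hg).comp ?_ ?_
  · exact computable_T.comp (Computable.succ.comp (Computable.fst.comp Computable.snd))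
  · exact Primrec.nat_add.to_comp.comp (Computable.snd.comp Computable.snd)
      (Computable.succ.comp (Computable.fst.comp Computable.snd))

theorem le_iterate {g : ℕ → ℕ} (hg : ∀ n, n ≤ g n) (m n : ℕ) : n ≤ g^[m] n := by
  induction m with
  | zero => simp
  | succ m ih => rw [Function.iterate_succ_apply']; exact ih.trans (hg _)

theorem iterate_le_iterate {g : ℕ → ℕ} (hg : ∀ n, n ≤ g n) {m m' : ℕ} (h : m ≤ m') (n : ℕ) :
    g^[m] n ≤ g^[m'] n := by
  obtain ⟨d, rfl⟩ := Nat.exists_eq_add_of_le h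
  rw [Nat.add_comm m d, Function.iterate_add_apply]
  exact le_iterate hg d _

theorem nu_mono {g : ℕ → ℕ} (hg : ∀ n, n ≤ g n) : Monotone (nu g) :=
  monotone_nat_of_le_succ (fun k => by
    rw [nu_succ]
    exact le_trans (Nat.le_add_right _ _) (le_iterate hg _ _))

/-- Approximations to the solution of the infinite system. -/
def A (Z : ℕ → Equiv.Perm ℕ) (ν : ℕ → ℕ) : ℕ → ℕ → Equiv.Perm ℕ
  | 0, _ => 1
  | (j + 1), i => Z (ν i) * (A Z ν j (i + 1)) ^ 3

section

variable {Z : ℕ → Equiv.Perm ℕ} {g : ℕ → ℕ}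

theorem A_succ_apply (ν : ℕ → ℕ) (j i q : ℕ) :
    A Z ν (j + 1) i q = Z (ν i) (A Z ν j (i + 1) (A Z ν j (i + 1) (A Z ν j (i + 1) q))) := by
  simp [A, pow_succ, Equiv.Perm.mul_apply]

theorem A_succ_inv_apply (ν : ℕ → ℕ) (j i q : ℕ) :
    (A Z ν (j + 1) i)⁻¹ q = (A Z ν j (i + 1))⁻¹ ((A Z ν j (i + 1))⁻¹
      ((A Z ν j (i + 1))⁻¹ ((Z (ν i))⁻¹ q))) := by
  simp [A, pow_succ, Equiv.Perm.mul_apply, mul_inv_rev]

theorem stab (hfix : ∀ n q, q ≤ n → Z n q = q) (hg : ∀ n, n ≤ g n) (_hgm : Monotone g)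
    (hb1 : ∀ n v q, v ≤ n → q ≤ n → Z v q ≤ g n)
    (hb2 : ∀ n v q, v ≤ n → q ≤ n → (Z v)⁻¹ q ≤ g n) (ν : ℕ → ℕ) (j : ℕ) :
    ∀ (i n q : ℕ), (∀ i', i ≤ i' → i' < i + j → ν i' ≤ n) → g^[T j] n ≤ ν (i + j) → q ≤ n →
      (A Z ν j i q ≤ g^[T j] n ∧ A Z ν (j + 1) i q = A Z ν j i q) ∧
      ((A Z ν j i)⁻¹ q ≤ g^[T j] n ∧ (A Z ν (j + 1) i)⁻¹ q = (A Z ν j i)⁻¹ q) := by
  induction j with
  | zero =>
    intro i n q _ h2 hq
    rw [T_zero, Function.iterate_zero, id_eq] at h2 ⊢
    have hq' : q ≤ ν i := hq.trans h2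
    have hZ : Z (ν i) q = q := hfix _ _ hq'
    have hZ' : (Z (ν i))⁻¹ q = q := by
      rw [Equiv.Perm.inv_eq_iff_eq]; exact hZ.symm
    refine ⟨⟨?_, ?_⟩, ⟨?_, ?_⟩⟩
    · simpa [A] using hq
    · rw [A_succ_apply]; simpa [A] using hZ
    · simpa [A] using hq
    · rw [A_succ_inv_apply]; simpa [A] using hZ'
  | succ j ih =>
    intro i n q h1 h2 hq
    have e3 : g^[T (j + 1)] n = g (g^[T j] (g^[T j] (g^[T j] n))) := by
      rw [T_succ, Function.iterate_succ_apply', ← Function.iterate_add_apply,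
        ← Function.iterate_add_apply]
      congr 2
      omega
    have e3' : g^[T (j + 1)] n = g^[T j] (g^[T j] (g^[T j] (g n))) := by
      rw [T_succ, Function.iterate_succ_apply, ← Function.iterate_add_apply,
        ← Function.iterate_add_apply]
      congr 2
      omega
    have hidx : i + (j + 1) = i + 1 + j := by omega
    rw [hidx] at h2
    -- forward
    set n1 := g^[T j] n with hn1
    set n2 := g^[T j] n1 with hn2
    set n3 := g^[T j] n2 with hn3
    have hn01 : n ≤ n1 := le_iterate hg _ _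
    have hn12 : n1 ≤ n2 := le_iterate hg _ _
    have hn23 : n2 ≤ n3 := le_iterate hg _ _
    have hb : n3 ≤ ν (i + 1 + j) := by
      refine le_trans ?_ h2
      rw [e3]; exact hg _
    have hH1 : ∀ m, n ≤ m → ∀ i', i + 1 ≤ i' → i' < i + 1 + j → ν i' ≤ m := by
      intro m hm i' h3 h4
      exact (h1 i' (by omega) (by omega)).trans hm
    obtain ⟨⟨f1, f2⟩, -⟩ := ih (i + 1) n q (hH1 n le_rfl) (by omega) hq
    obtain ⟨⟨f3, f4⟩, -⟩ := ih (i + 1) n1 _ (hH1 n1 hn01) (by omega) f1
    obtain ⟨⟨f5, f6⟩, -⟩ := ih (i + 1) n2 _ (hH1 n2 (by omega)) (by omega) f3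
    have hνi : ν i ≤ n := h1 i le_rfl (by omega)
    -- backward
    set m0 := g n with hm0
    set m1 := g^[T j] m0 with hm1
    set m2 := g^[T j] m1 with hm2
    set m3 := g^[T j] m2 with hm3
    have hm00 : n ≤ m0 := hg _
    have hm01 : m0 ≤ m1 := le_iterate hg _ _
    have hm12 : m1 ≤ m2 := le_iterate hg _ _
    have hm23 : m2 ≤ m3 := le_iterate hg _ _
    have hb' : m3 ≤ ν (i + 1 + j) := by
      refine le_trans ?_ h2
      rw [e3']
    have k0 : (Z (ν i))⁻¹ q ≤ m0 := hb2 n _ _ hνi hq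
    obtain ⟨-, ⟨k1, k2⟩⟩ := ih (i + 1) m0 _ (hH1 m0 hm00) (by omega) k0
    obtain ⟨-, ⟨k3, k4⟩⟩ := ih (i + 1) m1 _ (hH1 m1 (by omega)) (by omega) k1
    obtain ⟨-, ⟨k5, k6⟩⟩ := ih (i + 1) m2 _ (hH1 m2 (by omega)) (by omega) k3
    refine ⟨⟨?_, ?_⟩, ⟨?_, ?_⟩⟩
    · rw [A_succ_apply, e3]
      exact hb1 n3 _ _ (by omega) f5
    · rw [A_succ_apply ν (j + 1) i q, A_succ_apply ν j i q, f2, f4, f6]
    · rw [A_succ_inv_apply, e3']
      exact k5
    · rw [A_succ_inv_apply ν (j + 1) i q, A_succ_inv_apply ν j i q, k2, k4, k6]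

theorem stab' (hfix : ∀ n q, q ≤ n → Z n q = q) (hg : ∀ n, n ≤ g n) (hgm : Monotone g)
    (hb1 : ∀ n v q, v ≤ n → q ≤ n → Z v q ≤ g n)
    (hb2 : ∀ n v q, v ≤ n → q ≤ n → (Z v)⁻¹ q ≤ g n) (i j q : ℕ) (hq : q ≤ i + j) :
    A Z (nu g) (j + 1) i q = A Z (nu g) j i q ∧
      (A Z (nu g) (j + 1) i)⁻¹ q = (A Z (nu g) j i)⁻¹ q := by
  rcases Nat.eq_zero_or_pos (i + j) with h0 | hpos
  · have hi : i = 0 := by omega
    have hj : j = 0 := by omega
    subst hi; subst hj
    have := stab hfix hg hgm hb1 hb2 (nu g) 0 0 0 q (by intro i' _ h; omega)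
      (by simp [T_zero]) (by omega)
    exact ⟨this.1.2, this.2.2⟩
  · obtain ⟨k, hk⟩ : ∃ k, i + j = k + 1 := ⟨i + j - 1, by omega⟩
    have := stab hfix hg hgm hb1 hb2 (nu g) j i (nu g k + (k + 1)) q ?_ ?_ ?_
    · exact ⟨this.1.2, this.2.2⟩
    · intro i' _ h
      exact (nu_mono hg (show i' ≤ k by omega)).trans (Nat.le_add_right _ _)
    · rw [hk, nu_succ]
      exact iterate_le_iterate hg (T_mono (by omega)) _
    · omega

end

/-- Existence of a computable solution of the infinite system `Y i = Z (ν i) * (Y (i+1))^3`. -/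
theorem exists_chain (Z : ℕ → Equiv.Perm ℕ) (hZ : Computable₂ (fun n q => Z n q))
    (hZi : Computable₂ (fun n q => (Z n)⁻¹ q)) (hfix : ∀ n q, q ≤ n → Z n q = q) :
    ∃ (ν : ℕ → ℕ) (Y : ℕ → Equiv.Perm ℕ), (∀ i, Computable (Y i : ℕ → ℕ)) ∧
      (∀ i, Y i = Z (ν i) * (Y (i + 1)) ^ 3) ∧
      (∀ i N : ℕ, ∃ T ∈ Subgroup.closure (Set.range Z), ∀ q ≤ N, Y i q = T q) := by
  have hsum : Computable₂ (fun n q => Z n q + (Z n)⁻¹ q) :=
    Primrec.nat_add.to_comp.comp hZ hZi
  obtain ⟨g, hgc, hgm, hg, hgb⟩ := exists_bound hsum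
  have hb1 : ∀ n v q, v ≤ n → q ≤ n → Z v q ≤ g n := fun n v q h1 h2 =>
    (Nat.le_add_right _ _).trans (hgb n v q h1 h2)
  have hb2 : ∀ n v q, v ≤ n → q ≤ n → (Z v)⁻¹ q ≤ g n := fun n v q h1 h2 =>
    (Nat.le_add_left _ _).trans (hgb n v q h1 h2)
  set ν := nu g with hν
  have st := stab' (Z := Z) (g := g) hfix hg hgm hb1 hb2
  have st1 : ∀ i q j, q ≤ j → A Z ν j i q = A Z ν q i q := by
    intro i q j hj
    induction j, hj using Nat.le_induction with
    | base => rfl
    | succ j hj ih => rw [(st i j q (by omega)).1, ih]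
  have st2 : ∀ i q j, q ≤ j → (A Z ν j i)⁻¹ q = (A Z ν q i)⁻¹ q := by
    intro i q j hj
    induction j, hj using Nat.le_induction with
    | base => rfl
    | succ j hj ih => rw [(st i j q (by omega)).2, ih]
  let Y : ℕ → Equiv.Perm ℕ := fun i =>
    { toFun := fun q => A Z ν q i q
      invFun := fun q => (A Z ν q i)⁻¹ q
      left_inv := by
        intro q
        change (A Z ν (A Z ν q i q) i)⁻¹ (A Z ν q i q) = q
        have h2 := st2 i (A Z ν q i q) (max q (A Z ν q i q)) (le_max_right _ _)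
        have h1 := st1 i q (max q (A Z ν q i q)) (le_max_left _ _)
        rw [← h2, Equiv.Perm.inv_eq_iff_eq]
        exact h1.symm
      right_inv := by
        intro q
        change A Z ν ((A Z ν q i)⁻¹ q) i ((A Z ν q i)⁻¹ q) = q
        have h1 := st1 i ((A Z ν q i)⁻¹ q) (max q ((A Z ν q i)⁻¹ q)) (le_max_right _ _)
        have h2 := st2 i q (max q ((A Z ν q i)⁻¹ q)) (le_max_left _ _)
        rw [← h1]
        exact (Equiv.Perm.inv_eq_iff_eq.mp h2).symm }
  have hY : ∀ i q j, q ≤ j → Y i q = A Z ν j i q := fun i q j hj => (st1 i q j hj).symm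
  refine ⟨ν, Y, ?_, ?_, ?_⟩
  · -- computability
    intro i
    let V : ℕ → ℕ → List ℕ := fun k j => Nat.rec (motive := fun _ => List ℕ) []
      (fun s IH => IH ++ IH ++ IH ++ [ν (k - (s + 1))]) j
    have hV : Computable₂ V := by
      refine Computable.nat_rec (f := fun p : ℕ × ℕ => p.2) (g := fun _ : ℕ × ℕ => [])
        (h := fun (p : ℕ × ℕ) (z : ℕ × List ℕ) => z.2 ++ z.2 ++ z.2 ++ [ν (p.1 - (z.1 + 1))])
        Computable.snd (Computable.const []) ?_
      apply Computable₂.mk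
      have hz : Computable (fun p : (ℕ × ℕ) × ℕ × List ℕ => p.2.2) :=
        Computable.snd.comp Computable.snd
      refine Computable.list_append.comp (Computable.list_append.comp
        (Computable.list_append.comp hz hz) hz) ?_
      refine Computable.list_cons.comp ?_ (Computable.const [])
      refine (computable_nu hgc).comp ?_
      exact Primrec.nat_sub.to_comp.comp (Computable.fst.comp Computable.fst)
        (Computable.succ.comp (Computable.fst.comp Computable.snd))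
    have hVA : ∀ k j, j ≤ k → ∀ q,
        (V k j).foldl (fun x v => Z v x) q = A Z ν j (k - j) q := by
      intro k j
      induction j with
      | zero => intro _ q; simp [V, A]
      | succ j ih =>
        intro hj q
        have e : V k (j + 1) = V k j ++ V k j ++ V k j ++ [ν (k - (j + 1))] := rfl
        rw [e, List.foldl_append, List.foldl_append, List.foldl_append, A_succ_apply]
        have hk : k - (j + 1) + 1 = k - j := by omega
        rw [hk, ih (by omega), ih (by omega), ih (by omega)]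
        rfl
    have hc : Computable (fun q => (V (i + q) q).foldl (fun x v => Z v x) q) := by
      refine (computable_foldl hZ).comp (hV.comp ?_ Computable.id) Computable.id
      exact Primrec.nat_add.to_comp.comp (Computable.const i) Computable.id
    refine hc.of_eq ?_
    intro q
    rw [hVA (i + q) q (by omega) q, Nat.add_sub_cancel]
    rfl
  · intro i
    ext q
    let N := max q (max (Y (i + 1) q) (Y (i + 1) (Y (i + 1) q)))
    have h0 : q ≤ N := le_max_left _ _
    have h1 : Y (i + 1) q ≤ N := (le_max_left _ _).trans (le_max_right _ _)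
    have h2 : Y (i + 1) (Y (i + 1) q) ≤ N := (le_max_right _ _).trans (le_max_right _ _)
    rw [hY i q (N + 1) (by omega), A_succ_apply, ← hY (i + 1) q N h0,
      ← hY (i + 1) _ N h1, ← hY (i + 1) _ N h2]
    simp [pow_succ, Equiv.Perm.mul_apply]
  · intro i N
    refine ⟨A Z ν N i, ?_, fun q hq => hY i q N hq⟩
    have : ∀ j i, A Z ν j i ∈ Subgroup.closure (Set.range Z) := by
      intro j
      induction j with
      | zero => intro i; exact Subgroup.one_mem _
      | succ j ih =>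
        intro i
        exact Subgroup.mul_mem _ (Subgroup.subset_closure ⟨_, rfl⟩) (Subgroup.pow_mem _ (ih _) _)
    exact this N i

end Pool.Agent.H54.Limit
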