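import Mathlib
import Pool.Agent.H54.FreeProd
import Pool.Agent.H54.Comp
import Pool.Agent.H54.Limit
import Pool.Agent.H54.Elems

set_option autoImplicit false

namespace Pool.Agent.H54.Final

open Pool.Agent.H54 Pool.Agent.H54.Comp Pool.Agent.H54.Elems

theorem computable₂_inv {U : ℕ → Equiv.Perm ℕ} (hU : Computable₂ (fun n q => U n q)) :
    Computable₂ (fun n q => (U n)⁻¹ q) := by
  have hex : ∀ x : ℕ × ℕ, ∃ m, U x.1 m = x.2 := fun x => (U x.1).surjective x.2
  have h1 : ComputablePred (fun p : (ℕ × ℕ) × ℕ => U p.1.1 p.2 = p.1.2) := by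
    refine ⟨inferInstance, ?_⟩
    exact (Primrec.eq (α := ℕ)).decide.to_comp.comp
      (hU.comp (Computable.fst.comp Computable.fst) Computable.snd)
      (Computable.snd.comp Computable.fst)
  have h2 := Computable.find (P := fun (x : ℕ × ℕ) n => U x.1 n = x.2) h1 hex
  refine Computable.of_eq (f := fun x : ℕ × ℕ => Nat.find (hex x)) h2 ?_
  intro x
  have := Nat.find_spec (hex x)
  rw [eq_comm, Equiv.Perm.inv_eq_iff_eq]
  exact this.symm

/-- The test permutations, uniformly computable in any representation. -/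
theorem computable₂_word {A B C : Equiv.Perm ℕ} (hA : Computable (A : ℕ → ℕ))
    (hB : Computable (B : ℕ → ℕ)) (hC : Computable (C : ℕ → ℕ)) :
    Computable₂ (fun (e q : ℕ) => ((B * (A ^ e * C * (A ^ e)⁻¹)) ^ 2) q) := by
  have hp := computable₂_pow hA
  have hpi := computable₂_inv hp
  have h1 : Computable₂ (fun (e q : ℕ) => (B * (A ^ e * C * (A ^ e)⁻¹)) q) := by
    refine Computable.of_eq (f := fun p : ℕ × ℕ => B ((A ^ p.1) (C ((A ^ p.1)⁻¹ p.2)))) ?_ ?_
    · exact hB.comp (hp.comp Computable.fst (hC.comp (hpi.comp Computable.fst Computable.snd)))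
    · intro p; simp [Equiv.Perm.mul_apply]
  refine Computable.of_eq (f := fun p : ℕ × ℕ => (B * (A ^ p.1 * C * (A ^ p.1)⁻¹))
    ((B * (A ^ p.1 * C * (A ^ p.1)⁻¹)) p.2)) ?_ ?_
  · exact h1.comp Computable.fst (h1.comp Computable.fst Computable.snd)
  · intro p
    change _ = ((B * (A ^ p.1 * C * (A ^ p.1)⁻¹)) ^ 2) p.2
    rw [pow_two, Equiv.Perm.mul_apply (B * (A ^ p.1 * C * (A ^ p.1)⁻¹))]

theorem null_seq {Γ : Type} [Group Γ] (φ : Γ →* Equiv.Perm ℕ) (hφ : Function.Injective φ)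
    (hc : ∀ w, Computable (φ w : ℕ → ℕ)) (ι : Rec →* Γ) (hι : Function.Injective ι) :
    ∃ f : ℕ → ℕ, (∀ n, u (f n) ≠ 1) ∧ (∀ n, ∀ q ≤ n, φ (ι (u (f n))) q = q) ∧
      Computable₂ (fun n q => φ (ι (u (f n))) q) := by
  have hU : Computable₂ (fun e q => φ (ι (u e)) q) := by
    have h := computable₂_word (hc (ι ra)) (hc (ι rb)) (hc (ι rc))
    refine Computable.of_eq (f := fun p : ℕ × ℕ => _) h ?_
    intro p
    simp only [u, map_pow, map_mul, map_inv]
  have hne : ∀ e, φ (ι (u e)) ≠ 1 ↔ u e ≠ 1 := by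
    intro e
    rw [not_iff_not]
    constructor
    · intro h
      apply hι; apply hφ
      rw [h, map_one, map_one]
    · intro h; rw [h, map_one, map_one]
  have hund : ¬ ComputablePred (fun e => φ (ι (u e)) ≠ 1) := by
    intro h
    exact undecidable_u (h.of_eq hne)
  obtain ⟨f, hf, hf2⟩ := exists_null (U := fun e => φ (ι (u e))) hU hund
  refine ⟨f, fun n => (hne _).mp (hf2 n).1, fun n => (hf2 n).2, ?_⟩
  exact hU.comp (hf.comp Computable.fst) Computable.snd

theorem Rec_rep : ∃ (d : ℕ → Bool) (r : ℕ → List ℕ → Bool), Computable d ∧ Computable₂ r ∧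
        ∃ φ : Rec →* Equiv.Perm ℕ, Function.Injective φ ∧
          ∀ σ : Equiv.Perm ℕ, σ ∈ φ.range ↔
            (Computable (σ : ℕ → ℕ) ∧ (∀ n, d n = false → σ n = n) ∧
              (∀ n, d n = true → d (σ n) = true) ∧
              ∀ (i : ℕ) (l : List ℕ), (∀ x ∈ l, d x = true) → r i (l.map σ) = r i l) := by
  refine ⟨fun _ => true, fun _ _ => true, Computable.const true, Computable.const true,
    Rec.subtype, Rec.subtype_injective, ?_⟩
  intro σ
  rw [Subgroup.range_subtype, mem_Rec]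
  simp

theorem main : ¬ (∃ (d : ℕ → Bool) (r : ℕ → List ℕ → Bool), Computable d ∧ Computable₂ r ∧
        ∃ φ : Monoid.Coprod Rec Rec →* Equiv.Perm ℕ, Function.Injective φ ∧
          ∀ σ : Equiv.Perm ℕ, σ ∈ φ.range ↔
            (Computable (σ : ℕ → ℕ) ∧ (∀ n, d n = false → σ n = n) ∧
              (∀ n, d n = true → d (σ n) = true) ∧
              ∀ (i : ℕ) (l : List ℕ), (∀ x ∈ l, d x = true) → r i (l.map σ) = r i l)) := by
  classical
  rintro ⟨d, r, -, -, φ, hφ, hrange⟩
  have hc : ∀ w, Computable (φ w : ℕ → ℕ) := fun w => ((hrange (φ w)).mp ⟨w, rfl⟩).1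
  obtain ⟨f, hf1, hf2, hf3⟩ := null_seq φ hφ hc Monoid.Coprod.inl Monoid.Coprod.inl_injective
  obtain ⟨f', hf1', hf2', hf3'⟩ := null_seq φ hφ hc Monoid.Coprod.inr Monoid.Coprod.inr_injective
  let z : ℕ → Monoid.Coprod Rec Rec := fun n =>
    Monoid.Coprod.inl (u (f n)) * Monoid.Coprod.inr (u (f' n))
  let Z : ℕ → Equiv.Perm ℕ := fun n => φ (z n)
  have hZ : Computable₂ (fun n q => Z n q) := by
    refine Computable.of_eq (f := fun p : ℕ × ℕ => φ (Monoid.Coprod.inl (u (f p.1)))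
      (φ (Monoid.Coprod.inr (u (f' p.1))) p.2)) ?_ ?_
    · exact hf3.comp Computable.fst (hf3'.comp Computable.fst Computable.snd)
    · intro p
      simp only [Z, z, map_mul, Equiv.Perm.mul_apply]
  have hZi := computable₂_inv hZ
  have hfix : ∀ n q, q ≤ n → Z n q = q := by
    intro n q hq
    simp only [Z, z, map_mul, Equiv.Perm.mul_apply]
    rw [hf2' n q hq, hf2 n q hq]
  obtain ⟨ν, Y, hYc, hYeq, hYcl⟩ := Limit.exists_chain Z hZ hZi hfix
  have hcl : Subgroup.closure (Set.range Z) ≤ φ.range := by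
    rw [Subgroup.closure_le]
    rintro _ ⟨n, rfl⟩
    exact ⟨z n, rfl⟩
  have hY : ∀ i, Y i ∈ φ.range := by
    intro i
    rw [hrange]
    refine ⟨hYc i, ?_, ?_, ?_⟩
    · intro n hn
      obtain ⟨T, hT, hTq⟩ := hYcl i n
      rw [hTq n le_rfl]
      exact ((hrange T).mp (hcl hT)).2.1 n hn
    · intro n hn
      obtain ⟨T, hT, hTq⟩ := hYcl i n
      rw [hTq n le_rfl]
      exact ((hrange T).mp (hcl hT)).2.2.1 n hn
    · intro j l hl
      obtain ⟨T, hT, hTq⟩ := hYcl i l.sum
      have : l.map (Y i) = l.map T := by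
        apply List.map_congr_left
        intro a ha
        exact hTq a (List.le_sum_of_mem ha)
      rw [this]
      exact ((hrange T).mp (hcl hT)).2.2.2 j l hl
  choose y hy using hY
  have hrec : ∀ i, y i = z (ν i) * (y (i + 1)) ^ 3 := by
    intro i
    apply hφ
    rw [hy, hYeq, map_mul, map_pow, hy]
  let ψ : Monoid.Coprod Rec Rec →* Monoid.CoprodI (fun _ : Bool => Rec) :=
    Monoid.Coprod.lift (Monoid.CoprodI.of (M := fun _ : Bool => Rec) (i := true))
      (Monoid.CoprodI.of (M := fun _ : Bool => Rec) (i := false))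
  refine FP.no_chain (R := Rec) (fun n => u (f (ν n))) (fun n => u (f' (ν n)))
    (fun n g => u_notcube _ (hf1 _) g) (fun n g => u_notcube _ (hf1' _) g)
    (fun n => ψ (y n)) ?_
  intro n
  change ψ (y n) = _
  rw [hrec n, map_mul, map_pow]
  simp only [z, map_mul, ψ, Monoid.Coprod.lift_apply_inl, Monoid.Coprod.lift_apply_inr, mul_assoc]

end Pool.Agent.H54.Final
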